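import Pool.Agent.H94.PX4.M20

/-!
# PX Bas: the binary form

`fo_smul`, `fd_eq` (explicit derivative: `EuclideanSpace` coordinates are continuous linear maps; `HasFDerivAt.sum`), `fd_euler` (from `fd_eq` or from `fo_smul` by differentiating `c ↦ Fo θ y (c • x)`),
`fd_root` (at a root `x ≠ 0` the linear form `Fd θ y x` is `0` at `x`, so it is a multiple of `dt x`), `qf_add` (periodicity), `qf_le` (compactness of the torus and of the unit sphere), continuity, analyticity.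
-/

set_option autoImplicit false

open Topology Filter Metric

namespace Pool.Agent.PX

open Pool.Agent.H36.BP (EN fs wd)
open Pool.Agent.H62.EF (MN pr)
open Pool.Agent.AD (Vd)
open Pool.Agent.TG (Lat)
open Pool.Agent.G3 (wt)
open Pool.Agent.G4 (Few)

variable {k d r : ℕ}

variable {Λ : AddSubgroup (Vd (k + 1))} {D : Set (Vd (k + 1))} {Bad : Vd (k + 1) → Set (Vd (k + 1))} {θ : Fin (d + 1) → Vd (k + 1) → ℂ}
  {W : Fin r → Vd (k + 1) →L[ℂ] ℂ}

private theorem cdiff (j : Fin (1 + 1)) : Differentiable ℂ fun x : EN 1 => x j := by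
  exact (EuclideanSpace.proj (𝕜 := ℂ) j : EN 1 →L[ℂ] ℂ).differentiable

theorem fo_smul (θ : Fin (d + 1) → Vd (k + 1) → ℂ) (y : Vd (k + 1)) (c : ℂ) (x : EN 1) : Fo θ y (c • x) = c ^ d * Fo θ y x := by
  unfold Fo
  rw [Finset.mul_sum]
  refine Finset.sum_congr rfl fun i _ => ?_
  have hi : (i : ℕ) ≤ d := Nat.lt_succ_iff.mp i.2
  have h1 : c ^ d = c ^ (i : ℕ) * c ^ (d - (i : ℕ)) := by rw [← pow_add, Nat.add_sub_cancel' hi]
  rw [h1]
  simp only [PiLp.smul_apply, smul_eq_mul, mul_pow]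
  ring

theorem fo_diff {θ : Fin (d + 1) → Vd (k + 1) → ℂ} (han : ∀ i, Differentiable ℂ (θ i)) : Differentiable ℂ fun p : Vd (k + 1) × EN 1 => Fo θ p.1 p.2 := by
  unfold Fo
  refine Differentiable.fun_sum fun i _ => ?_
  have h0 : Differentiable ℂ fun p : Vd (k + 1) × EN 1 => p.2 0 := (cdiff 0).comp differentiable_snd
  have h1 : Differentiable ℂ fun p : Vd (k + 1) × EN 1 => p.2 1 := (cdiff 1).comp differentiable_snd
  have h2 : Differentiable ℂ fun p : Vd (k + 1) × EN 1 => θ i p.1 := (han i).comp differentiable_fst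
  exact (h2.mul (h0.pow _)).mul (h1.pow _)

private theorem fo_differentiable (θ : Fin (d + 1) → Vd (k + 1) → ℂ) (y : Vd (k + 1)) : Differentiable ℂ (Fo θ y) := by
  unfold Fo
  refine Differentiable.fun_sum fun i _ => ?_
  exact (((cdiff 0).pow _).const_mul _).mul ((cdiff 1).pow _)

private theorem fd_line (θ : Fin (d + 1) → Vd (k + 1) → ℂ) (y : Vd (k + 1)) (x v : EN 1) :
    HasDerivAt (fun t : ℂ => Fo θ y (x + t • v)) (Fd θ y x v) 0 := by
  have h1 : HasDerivAt (fun t : ℂ => x + t • v) v 0 := by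
    simpa using ((hasDerivAt_id (0 : ℂ)).smul_const v).const_add x
  have h2 : HasFDerivAt (Fo θ y) (fderiv ℂ (Fo θ y) x) (x + (0 : ℂ) • v) := by
    have := (fo_differentiable θ y x).hasFDerivAt
    simpa using this
  exact h2.comp_hasDerivAt (0 : ℂ) h1

theorem fd_eq (θ : Fin (d + 1) → Vd (k + 1) → ℂ) (y : Vd (k + 1)) (x v : EN 1) :
    Fd θ y x v = ∑ i : Fin (d + 1), θ i y * ((i : ℕ) * x 0 ^ ((i : ℕ) - 1) * x 1 ^ (d - (i : ℕ)) * v 0 + ((d - (i : ℕ) : ℕ) : ℂ) * x 0 ^ (i : ℕ) * x 1 ^ (d - (i : ℕ) - 1) * v 1) := by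
  refine (fd_line θ y x v).unique ?_
  unfold Fo
  refine HasDerivAt.fun_sum fun i _ => ?_
  have h0 : HasDerivAt (fun t : ℂ => (x + t • v) 0) (v 0) 0 := by
    simpa using ((hasDerivAt_id (0 : ℂ)).mul_const (v 0)).const_add (x 0)
  have h1 : HasDerivAt (fun t : ℂ => (x + t • v) 1) (v 1) 0 := by
    simpa using ((hasDerivAt_id (0 : ℂ)).mul_const (v 1)).const_add (x 1)
  have h := ((h0.fun_pow (i : ℕ)).const_mul (θ i y)).mul (h1.fun_pow (d - (i : ℕ)))
  refine h.congr_deriv ?_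
  simp only [zero_smul, add_zero]
  ring

theorem fd_euler (θ : Fin (d + 1) → Vd (k + 1) → ℂ) (y : Vd (k + 1)) (x : EN 1) : Fd θ y x x = d * Fo θ y x := by
  refine (fd_line θ y x x).unique ?_
  have he : (fun t : ℂ => Fo θ y (x + t • x)) = fun t : ℂ => (1 + t) ^ d * Fo θ y x := by
    funext t
    rw [← fo_smul, add_smul, one_smul]
  rw [he]
  have h1 : HasDerivAt (fun t : ℂ => 1 + t) 1 0 := (hasDerivAt_id (0 : ℂ)).const_add 1
  have h := (h1.fun_pow d).mul_const (Fo θ y x)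
  refine h.congr_deriv ?_
  simp

private theorem coord_ne {x : EN 1} (hx : x ≠ 0) : x 0 ≠ 0 ∨ x 1 ≠ 0 := by
  by_contra h
  push Not at h
  apply hx
  ext i
  fin_cases i
  · exact h.1
  · exact h.2

/-- at a root the derivative is a multiple of the determinant -/
theorem fd_root (θ : Fin (d + 1) → Vd (k + 1) → ℂ) {y : Vd (k + 1)} {x : EN 1} (hx : x ≠ 0) (h : Fo θ y x = 0) : ∃ κ : ℂ, ∀ v, Fd θ y x v = κ * dt x v := by
  obtain ⟨A, B, hAB⟩ : ∃ A B : ℂ, ∀ v : EN 1, Fd θ y x v = A * v 0 + B * v 1 := by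
    refine ⟨∑ i : Fin (d + 1), θ i y * ((i : ℕ) * x 0 ^ ((i : ℕ) - 1) * x 1 ^ (d - (i : ℕ))),
      ∑ i : Fin (d + 1), θ i y * (((d - (i : ℕ) : ℕ) : ℂ) * x 0 ^ (i : ℕ) * x 1 ^ (d - (i : ℕ) - 1)), fun v => ?_⟩
    rw [fd_eq, Finset.sum_mul, Finset.sum_mul, ← Finset.sum_add_distrib]
    refine Finset.sum_congr rfl fun i _ => ?_
    ring
  have h0 : A * x 0 + B * x 1 = 0 := by
    rw [← hAB x, fd_euler, h, mul_zero]
  rcases coord_ne hx with h1 | h1
  · refine ⟨B / x 0, fun v => ?_⟩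
    rw [hAB v, dt]
    field_simp
    linear_combination v 0 * h0
  · refine ⟨-A / x 1, fun v => ?_⟩
    rw [hAB v, dt]
    field_simp
    linear_combination v 1 * h0

theorem dt_eq_zero {x v : EN 1} (hx : x ≠ 0) : dt x v = 0 ↔ ∃ c : ℂ, v = c • x := by
  constructor
  · intro h
    unfold dt at h
    rcases coord_ne hx with h1 | h1
    · refine ⟨v 0 / x 0, ?_⟩
      ext i
      fin_cases i
      · simp only [Fin.zero_eta, PiLp.smul_apply, smul_eq_mul]
        field_simp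
      · simp only [Fin.mk_one, PiLp.smul_apply, smul_eq_mul]
        field_simp
        linear_combination h
    · refine ⟨v 1 / x 1, ?_⟩
      ext i
      fin_cases i
      · simp only [Fin.zero_eta, PiLp.smul_apply, smul_eq_mul]
        field_simp
        linear_combination -h
      · simp only [Fin.mk_one, PiLp.smul_apply, smul_eq_mul]
        field_simp
  · rintro ⟨c, rfl⟩
    unfold dt
    simp only [PiLp.smul_apply, smul_eq_mul]
    ring

theorem PD.qf_add (P : PD Λ D Bad θ W) {l : Vd (k + 1)} (hl : l ∈ Λ) (y : Vd (k + 1)) (x : EN 1) : qf θ W (y + l) x = qf θ W y x := by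
  obtain ⟨e, he, h⟩ := P.per l hl y
  have h1 : Fo θ (y + l) x = e * Fo θ y x := by
    unfold Fo
    rw [Finset.mul_sum]
    refine Finset.sum_congr rfl fun i _ => ?_
    rw [h i]; ring
  unfold qf
  rw [h1, norm_mul, ← he]
  ring

private theorem coord_le (x : EN 1) (j : Fin (1 + 1)) : ‖x j‖ ≤ ‖x‖ := PiLp.norm_apply_le x j

theorem PD.qf_le (P : PD Λ D Bad θ W) : ∃ C : ℝ, 0 < C ∧ ∀ y x, qf θ W y x ≤ C := by
  obtain ⟨R, hR, hcov⟩ := P.lat.cpt
  have hcont : Continuous fun y : Vd (k + 1) => (∑ i : Fin (d + 1), ‖θ i y‖) * Real.exp (-wt W y) := by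
    unfold wt
    have h1 : Continuous fun y : Vd (k + 1) => ∑ i : Fin (d + 1), ‖θ i y‖ := continuous_finsetSum _ fun i _ => (P.an i).continuous.norm
    have h2 : Continuous fun y : Vd (k + 1) => ∑ i, ‖W i y‖ ^ 2 := continuous_finsetSum _ fun i _ => ((W i).continuous.norm).pow 2
    exact h1.mul (Real.continuous_exp.comp h2.neg)
  obtain ⟨C, hC⟩ := (isCompact_closedBall (0 : Vd (k + 1)) R).exists_bound_of_continuousOn hcont.continuousOn
  have hd : d ≠ 0 := by have := P.deg; omega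
  refine ⟨|C| + 1, by positivity, fun y x => ?_⟩
  obtain ⟨l, hl, hyl⟩ := hcov y
  have h1 : qf θ W y x = qf θ W (y - l) x := by
    have := P.qf_add hl (y - l) x
    rw [sub_add_cancel] at this
    exact this
  rw [h1]
  have hmem : y - l ∈ closedBall (0 : Vd (k + 1)) R := by rwa [mem_closedBall_zero_iff]
  have h2 := hC _ hmem
  rw [Real.norm_of_nonneg (by positivity)] at h2
  refine le_trans ?_ (h2.trans ((le_abs_self C).trans (by linarith)))
  have hfo : ‖Fo θ (y - l) x‖ ≤ (∑ i : Fin (d + 1), ‖θ i (y - l)‖) * ‖x‖ ^ d := by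
    unfold Fo
    refine (norm_sum_le _ _).trans ?_
    rw [Finset.sum_mul]
    refine Finset.sum_le_sum fun i _ => ?_
    have hi : (i : ℕ) ≤ d := Nat.lt_succ_iff.mp i.2
    have h3 : ‖x‖ ^ d = ‖x‖ ^ (i : ℕ) * ‖x‖ ^ (d - (i : ℕ)) := by rw [← pow_add, Nat.add_sub_cancel' hi]
    rw [norm_mul, norm_mul, norm_pow, norm_pow, h3, mul_assoc]
    refine mul_le_mul_of_nonneg_left ?_ (norm_nonneg _)
    exact mul_le_mul (pow_le_pow_left₀ (norm_nonneg _) (coord_le x 0) _) (pow_le_pow_left₀ (norm_nonneg _) (coord_le x 1) _) (by positivity) (by positivity)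
  unfold qf
  rcases eq_or_ne x 0 with hx | hx
  · subst hx
    rw [norm_zero, zero_pow hd, div_zero]
    positivity
  · have hxp : 0 < ‖x‖ ^ d := pow_pos (norm_pos_iff.mpr hx) _
    rw [div_le_iff₀ hxp]
    calc ‖Fo θ (y - l) x‖ * Real.exp (-wt W (y - l)) ≤ ((∑ i : Fin (d + 1), ‖θ i (y - l)‖) * ‖x‖ ^ d) * Real.exp (-wt W (y - l)) :=
          mul_le_mul_of_nonneg_right hfo (Real.exp_pos _).le
      _ = (∑ i : Fin (d + 1), ‖θ i (y - l)‖) * Real.exp (-wt W (y - l)) * ‖x‖ ^ d := by ring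

end Pool.Agent.PX
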